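import Pool.Agent.L5helper88.NS.Model
import Pool.Agent.L5helper88.NS.Sys
import Pool.Agent.L5helper88.CP.Field

/-!
# The field of coefficients of nested systems of linear equations can be changed
-/

set_option autoImplicit false

open Finset MvPolynomial

namespace Pool.Agent.L5helper88.Model

section fields

variable {K K' : Type} [Field K] [Field K'] {σ : Type} (ι : K →+* K')

theorem mapRat_Quad {l : List (RatFun K σ)} {u : RatFun K σ} (hu : u ∈ Quad l) :
    mapRat ι u ∈ Quad (l.map (mapRat ι)) := by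
  unfold Quad at hu
  induction hu using Submodule.span_induction with
  | mem u hu =>
    obtain ⟨a, ha, b, hb, rfl⟩ := hu
    rw [map_mul]
    exact Submodule.subset_span ⟨_, mapRat_Lin ι ha, _, mapRat_Lin ι hb, rfl⟩
  | zero => rw [map_zero]; exact Submodule.zero_mem _
  | add u v _ _ hu hv => rw [map_add]; exact Submodule.add_mem _ hu hv
  | smul c u _ hu => rw [mapRat_smul]; exact Submodule.smul_mem _ _ hu

theorem Systems.map {l : List (RatFun K σ)} {s : List ℕ} (h : Systems l s) :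
    Systems (l.map (mapRat ι)) s := by
  induction h with
  | nil => exact Systems.nil
  | solve l s n B β y _ hB hβ hdet hy ih =>
    rw [List.map_append, List.map_ofFn]
    refine Systems.solve _ s n (B.map (mapRat ι)) (fun i => mapRat ι (β i)) _ ih
      (fun i j => mapRat_Lin ι (hB i j)) (fun i => mapRat_Quad ι (hβ i)) ?_ ?_
    · have h1 : (B.map (mapRat ι)).det = mapRat ι B.det := (RingHom.map_det (mapRat ι) B).symm
      rw [h1]
      exact (map_ne_zero (mapRat ι)).2 hdet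
    · intro i
      simp only [Function.comp, Matrix.map_apply]
      rw [← hy i, map_sum]
      exact sum_congr rfl fun j _ => (map_mul _ _ _).symm

theorem Solved.map {f : MvPolynomial σ K} {s : List ℕ} (h : Solved f s) :
    Solved (MvPolynomial.map ι f) s := by
  obtain ⟨l, h1, h2⟩ := h
  refine ⟨l.map (mapRat ι), h1.map ι, ?_⟩
  rw [← mapRat_toRat]
  exact mapRat_Lin ι h2

/-- a quadratic expression has coefficients in a finitely generated field -/
theorem exists_quad (l : List (RatFun K σ)) (u : RatFun K σ) (hu : u ∈ Quad l) :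
    ∃ A : Finset K, ∀ K₀ : Subfield K, (∀ a ∈ A, a ∈ K₀) → ∀ l₀ : List (RatFun K₀ σ),
      l₀.map (mapRat K₀.subtype) = l → ∃ u₀ ∈ Quad l₀, mapRat K₀.subtype u₀ = u := by
  classical
  unfold Quad at hu
  induction hu using Submodule.span_induction with
  | mem u hu =>
    obtain ⟨v, hv, w, hw, rfl⟩ := hu
    obtain ⟨A, hA⟩ := exists_lin l v hv
    obtain ⟨B, hB⟩ := exists_lin l w hw
    refine ⟨A ∪ B, fun K₀ h l₀ hl₀ => ?_⟩
    obtain ⟨v₀, h1, h2⟩ := hA K₀ (fun a ha => h a (mem_union_left _ ha)) l₀ hl₀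
    obtain ⟨w₀, h3, h4⟩ := hB K₀ (fun a ha => h a (mem_union_right _ ha)) l₀ hl₀
    exact ⟨v₀ * w₀, Submodule.subset_span ⟨v₀, h1, w₀, h3, rfl⟩, by rw [map_mul, h2, h4]⟩
  | zero => exact ⟨∅, fun K₀ _ l₀ _ => ⟨0, Submodule.zero_mem _, map_zero _⟩⟩
  | add u v _ _ hu hv =>
    obtain ⟨A, hA⟩ := hu
    obtain ⟨B, hB⟩ := hv
    refine ⟨A ∪ B, fun K₀ h l₀ hl₀ => ?_⟩
    obtain ⟨u₀, h1, h2⟩ := hA K₀ (fun a ha => h a (mem_union_left _ ha)) l₀ hl₀
    obtain ⟨v₀, h3, h4⟩ := hB K₀ (fun a ha => h a (mem_union_right _ ha)) l₀ hl₀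
    exact ⟨u₀ + v₀, Submodule.add_mem _ h1 h3, by rw [map_add, h2, h4]⟩
  | smul c u _ hu =>
    obtain ⟨A, hA⟩ := hu
    refine ⟨insert c A, fun K₀ h l₀ hl₀ => ?_⟩
    obtain ⟨u₀, h1, h2⟩ := hA K₀ (fun a ha => h a (mem_insert_of_mem ha)) l₀ hl₀
    refine ⟨(⟨c, h c (mem_insert_self _ _)⟩ : K₀) • u₀, Submodule.smul_mem _ _ h1, ?_⟩
    rw [mapRat_smul, h2]
    rfl

/-- nested systems of linear equations have coefficients in a finitely generated field -/
theorem exists_sys (l : List (RatFun K σ)) (s : List ℕ) (hl : Systems l s) :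
    ∃ A : Finset K, ∀ K₀ : Subfield K, (∀ a ∈ A, a ∈ K₀) → ∃ l₀ : List (RatFun K₀ σ),
      Systems l₀ s ∧ l₀.map (mapRat K₀.subtype) = l := by
  classical
  induction hl with
  | nil => exact ⟨∅, fun K₀ _ => ⟨[], Systems.nil, rfl⟩⟩
  | solve l s n B β y _ hB hβ hdet hy ih =>
    obtain ⟨A, hA⟩ := ih
    choose AB hAB using fun i j => exists_lin l (B i j) (hB i j)
    choose Aβ hAβ using fun i => exists_quad l (β i) (hβ i)
    refine ⟨A ∪ ((univ.biUnion fun i => univ.biUnion fun j => AB i j) ∪ univ.biUnion Aβ),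
      fun K₀ h => ?_⟩
    obtain ⟨l₀, h1, h2⟩ := hA K₀ fun a ha => h a (mem_union_left _ ha)
    have h3 : ∀ i j, ∃ u₀ ∈ Lin l₀, mapRat K₀.subtype u₀ = B i j := fun i j =>
      hAB i j K₀ (fun a ha => h a (mem_union_right _ (mem_union_left _
        (mem_biUnion.2 ⟨i, mem_univ _, mem_biUnion.2 ⟨j, mem_univ _, ha⟩⟩)))) l₀ h2
    have h4 : ∀ i, ∃ u₀ ∈ Quad l₀, mapRat K₀.subtype u₀ = β i := fun i =>
      hAβ i K₀ (fun a ha => h a (mem_union_right _ (mem_union_right _
        (mem_biUnion.2 ⟨i, mem_univ _, ha⟩)))) l₀ h2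
    choose B₀ hB₀1 hB₀2 using h3
    choose β₀ hβ₀1 hβ₀2 using h4
    set M₀ : Matrix (Fin n) (Fin n) (RatFun K₀ σ) := Matrix.of B₀ with hM₀
    have hM : M₀.map (mapRat K₀.subtype) = B := by
      ext i j
      rw [Matrix.map_apply, hM₀, Matrix.of_apply, hB₀2]
    have hdet₀ : M₀.det ≠ 0 := by
      intro h0
      apply hdet
      have h5 : (M₀.map (mapRat K₀.subtype)).det = mapRat K₀.subtype M₀.det :=
        (RingHom.map_det (mapRat K₀.subtype) M₀).symm
      rw [← hM, h5, h0, map_zero]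
    set y₀ : Fin n → RatFun K₀ σ := M₀⁻¹.mulVec β₀ with hy₀
    have h6 : M₀.mulVec y₀ = β₀ := by
      rw [hy₀, Matrix.mulVec_mulVec, Matrix.mul_nonsing_inv _ (isUnit_iff_ne_zero.2 hdet₀),
        Matrix.one_mulVec]
    have h7 : ∀ i, ∑ j, M₀ i j * y₀ j = β₀ i := fun i => congrFun h6 i
    have h8 : (fun i => mapRat K₀.subtype (y₀ i)) = y := by
      have h9 : B.mulVec ((fun i => mapRat K₀.subtype (y₀ i)) - y) = 0 := by
        rw [Matrix.mulVec_sub, sub_eq_zero]
        funext i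
        change ∑ j, B i j * mapRat K₀.subtype (y₀ j) = ∑ j, B i j * y j
        rw [hy i, ← hβ₀2 i, ← h7 i, map_sum]
        refine sum_congr rfl fun j _ => ?_
        rw [map_mul, ← hB₀2 i j]
        rfl
      exact sub_eq_zero.1 (Matrix.eq_zero_of_mulVec_eq_zero hdet h9)
    refine ⟨List.ofFn y₀ ++ l₀, Systems.solve l₀ s n M₀ β₀ y₀ h1 hB₀1 hβ₀1 hdet₀ h7, ?_⟩
    rw [List.map_append, List.map_ofFn, h2]
    congr 1
    rw [← h8]
    rfl

end fields

/-- nested systems over a field of characteristic zero give nested systems over `ℂ` -/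
theorem solved_complex {K : Type} [Field K] [CharZero K] {m : ℕ} {s : List ℕ}
    (h : Solved (perm K m) s) : Solved (perm ℂ m) s := by
  classical
  obtain ⟨l, h1, h3⟩ := h
  obtain ⟨A, hA⟩ := exists_sys l s h1
  obtain ⟨B, hB⟩ := exists_lin l _ h3
  set K₀ : Subfield K := Subfield.closure (↑(A ∪ B) : Set K) with hK₀
  have hsub : ∀ a ∈ A ∪ B, a ∈ K₀ := fun a ha => Subfield.subset_closure (mem_coe.2 ha)
  obtain ⟨l₀, h4, h5⟩ := hA K₀ fun a ha => hsub a (mem_union_left _ ha)
  obtain ⟨u₀, h6, h7⟩ := hB K₀ (fun a ha => hsub a (mem_union_right _ ha)) l₀ h5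
  have h8 : u₀ = toRat (perm K₀ m) := by
    apply (mapRat (σ := Fin m × Fin m) K₀.subtype).injective
    rw [h7, mapRat_toRat, map_perm]
  have hcomp : Solved (perm K₀ m) s := ⟨l₀, h4, h8 ▸ h6⟩
  have hcard : Cardinal.mk K₀ ≤ Cardinal.continuum := by
    refine (Subfield.cardinalMk_closure_le_max _).trans (max_le ?_ Cardinal.aleph0_le_continuum)
    exact (Cardinal.lt_aleph0_of_finite _).le.trans Cardinal.aleph0_le_continuum
  obtain ⟨j⟩ := Pool.Agent.N111.QC.exists_embed K₀ hcard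
  have := hcomp.map j
  rwa [map_perm] at this

open Pool.Agent.L5helper88.NS in
theorem Systems.sys {σ : Type} {l : List (RatFun ℂ σ)} {s : List ℕ} (h : Systems l s) :
    Sys (Pool.Agent.L5helper60.LA.xv ℂ : σ → RatFun ℂ σ) l s := by
  induction h with
  | nil => exact Sys.nil
  | solve l s n B β y _ hB hβ hdet hy ih =>
    refine Sys.solve l s n B β y ih hB (fun i => ?_) hdet hy
    have h1 := hβ i
    unfold Quad at h1
    unfold CP.Q
    refine Submodule.span_mono ?_ h1
    rintro a ⟨u, hu, v, hv, rfl⟩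
    exact ⟨u, v, hu, hv, rfl⟩

end Pool.Agent.L5helper88.Model
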